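import Mathlib

set_option autoImplicit false

namespace Pool.Agent.Results.MP_b7f7f4_co.Block

open Finset

variable {X : Type} [Fintype X] [DecidableEq X]

def Latin (L : X → X → X) : Prop :=
  (∀ r, Function.Injective (L r)) ∧ ∀ c, Function.Injective (fun r => L r c)

def Weight (L : X → X → X) (k : ℤ) (θ : X → X → ℤ) : Prop :=
  (∀ r, ∑ c, θ r c = k) ∧ (∀ c, ∑ r, θ r c = k) ∧
    ∀ s, ∑ r, ∑ c, (if L r c = s then θ r c else 0) = k

/-- the symbols of block `(i, j)` -/
def Syms {Z : Type} {q : ℕ} (L : X → X → X) (R C : Z × Fin q ≃ X) (i j : Z) : Finset X :=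
  univ.image (fun p : Fin q × Fin q => L (R (i, p.1)) (C (j, p.2)))

/-- odd-block pattern of the cyclic group of order `2 m` -/
def OddBlock (L : X → X → X) (m : ℕ) : Prop :=
  ∃ q, Odd q ∧ ∃ R C : ZMod (2 * m) × Fin q ≃ X, (∀ i j, (Syms L R C i j).card = q) ∧
    ∀ i j i' j', Syms L R C i j = Syms L R C i' j' ↔ i + j = i' + j'

theorem split {Z : Type} [DecidableEq Z] (a : X → Z) (q : ℕ)
    (h : ∀ i, (univ.filter (fun r => a r = i)).card = q) :
    ∃ R : Z × Fin q ≃ X, ∀ i k, a (R (i, k)) = i := by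
  have e : ∀ i, Fin q ≃ {r // a r = i} := fun i =>
    (Fintype.equivFinOfCardEq (by rw [Fintype.card_subtype, h])).symm
  exact ⟨(Equiv.sigmaEquivProd _ _).symm.trans ((Equiv.sigmaCongrRight e).trans
    (Equiv.sigmaFiberEquiv a)), fun i k => (e i k).2⟩

theorem cyc (L : X → X → X) (hL : Latin L) (N : ℕ) [NeZero N] (a b g : X → ZMod N) (o : X)
    (h : ∀ r c, a r + b c = g (L r c)) (ha : a o = 0) (hb : b o = 0)
    (hs : Function.Surjective g) (h0 : ∑ s, g s ≠ 0) : ∃ m, 1 ≤ m ∧ OddBlock L m := by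
  have br : ∀ r, Function.Bijective (L r) := fun r => (hL.1 r).bijective_of_finite
  have bc : ∀ c, Function.Bijective (fun r => L r c) := fun c => (hL.2 c).bijective_of_finite
  set q := (univ.filter (fun c => b c = 0)).card with hq
  have fg : ∀ i, (univ.filter (fun s => g s = i)).card = q := by
    intro i
    obtain ⟨s, rfl⟩ := hs i
    obtain ⟨r, rfl⟩ := (bc o).2 s
    refine (card_bijective _ (br r) (fun c => ?_)).symm
    simp [← h, hb]
  have fa : ∀ i, (univ.filter (fun s => a s = i)).card = q := fun i => by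
    rw [← fg i]; exact card_bijective _ (bc o) (fun c => by simp [← h, hb])
  have fb : ∀ i, (univ.filter (fun s => b s = i)).card = q := fun i => by
    rw [← fg i]; exact card_bijective _ (br o) (fun c => by simp [← h, ha])
  have hsum : ∑ s, g s = q • ∑ i : ZMod N, i := by
    rw [← sum_fiberwise univ g, smul_sum]
    refine sum_congr rfl (fun i _ => ?_)
    rw [sum_congr rfl (g := fun _ => i) (fun s hs => (mem_filter.1 hs).2), sum_const, fg]
  have h2 : 2 • ∑ i : ZMod N, i = 0 := by
    have := Equiv.sum_comp (Equiv.neg (ZMod N)) (fun i => i)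
    simp only [Equiv.neg_apply] at this
    rw [two_nsmul]; nth_rewrite 1 [← this]; rw [← sum_add_distrib]; exact sum_eq_zero (fun x _ => neg_add_cancel x)
  have hqo : Odd q := by
    rcases Nat.even_or_odd q with ⟨k, hk⟩ | ho
    · exact absurd (by rw [hsum, hk, ← two_mul, mul_nsmul, h2, nsmul_zero]) h0
    · exact ho
  obtain ⟨m, rfl⟩ : ∃ m, N = 2 * m := by
    rcases Nat.even_or_odd' N with ⟨k, hk | hk⟩
    · exact ⟨k, hk⟩
    · have h3 : (2 * k + 1) • ∑ i : ZMod N, i = 0 := by rw [← hk]; simp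
      rw [succ_nsmul, mul_nsmul, h2, nsmul_zero, zero_add] at h3
      exact absurd (by rw [hsum, h3, nsmul_zero]) h0
  obtain ⟨R, hR⟩ := split a q fa
  obtain ⟨C, hC⟩ := split b q fb
  have key : ∀ i j, Syms L R C i j = univ.filter (fun s => g s = i + j) := by
    intro i j
    refine eq_of_subset_of_card_le (fun s hs => ?_) ?_
    · obtain ⟨p, -, rfl⟩ := mem_image.1 hs
      simp [← h, hR, hC]
    · rw [fg]
      refine le_trans (by simp) (card_le_card_of_injOn (s := (univ : Finset (Fin q)))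
        (fun k => L (R (i, ⟨0, hqo.pos⟩)) (C (j, k))) (fun k _ => ?_) (fun k _ l _ e => ?_))
      · exact mem_coe.2 (mem_image.2 ⟨(_, k), mem_univ _, rfl⟩)
      · simpa using hL.1 _ e
  refine ⟨m, by have := NeZero.ne (2 * m); omega, q, hqo, R, C, fun i j => by rw [key, fg],
    fun i j i' j' => ⟨fun e => ?_, fun e => by rw [key, key, e]⟩⟩
  obtain ⟨s, hs⟩ := hs (i + j)
  rw [key, key] at e
  have : s ∈ univ.filter (fun s => g s = i' + j') := by rw [← e]; simp [hs]
  rw [← hs, (mem_filter.1 this).2]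

theorem result (X : Type) [Fintype X] [DecidableEq X] (L : X → X → X) (hL : Latin L)
    (h : ∀ k θ, Odd k → ¬ Weight L k θ) : ∃ m, 1 ≤ m ∧ OddBlock L m := by
  classical
  obtain ⟨o⟩ : Nonempty X := by
    by_contra hn
    rw [not_nonempty_iff] at hn
    exact h 1 0 odd_one ⟨isEmptyElim, isEmptyElim, isEmptyElim⟩
  let Φ : (X → X → ℤ) →+ (X → ℤ) × (X → ℤ) × (X → ℤ) :=
    { toFun := fun θ => (fun r => ∑ c, θ r c, fun c => ∑ r, θ r c,
        fun s => ∑ r, ∑ c, if L r c = s then θ r c else 0)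
      map_zero' := by ext <;> simp
      map_add' := fun θ η => by
        ext <;> simp only [Pi.add_apply, Prod.fst_add, Prod.snd_add, ← sum_add_distrib]
        exact sum_congr rfl (fun _ _ => sum_congr rfl (fun _ _ => by split_ifs <;> simp)) }
  obtain ⟨χ, hχ⟩ := CharacterModule.exists_character_apply_ne_zero_of_ne_zero
    (a := (QuotientAddGroup.mk' Φ.range (1, 1, 1))) (fun e => by
      obtain ⟨θ, hθ⟩ := (QuotientAddGroup.eq_zero_iff _).1 e
      exact h 1 θ odd_one ⟨congrFun (congrArg (·.1) hθ), congrFun (congrArg (·.2.1) hθ),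
        congrFun (congrArg (·.2.2) hθ)⟩)
  let ψ : ((X → ℤ) × (X → ℤ) × (X → ℤ)) →+ AddCircle (1 : ℚ) :=
    AddMonoidHom.comp χ (QuotientAddGroup.mk' Φ.range)
  let α := fun r => ψ (Pi.single r 1, 0, 0)
  let β := fun r => ψ (0, Pi.single r 1, 0)
  let γ := fun r => ψ (0, 0, Pi.single r 1)
  have h1 : ∀ r c, α r + β c + γ (L r c) = 0 := by
    intro r c
    have : Φ (Pi.single r (Pi.single c 1)) =
        (Pi.single r 1, 0, 0) + (0, Pi.single c 1, 0) + (0, 0, Pi.single (L r c) 1) := by
      ext x <;> simp [Φ, Pi.single_apply, ite_apply, eq_comm]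
      rw [sum_eq_single r (by intro y _ hy; simp [hy.symm]) (by simp),
        sum_eq_single c (by intro y _ hy; simp [hy.symm]) (by simp)]
      simp
    simp only [α, β, γ, ← map_add, ← this]
    show χ (QuotientAddGroup.mk' Φ.range _) = 0
    rw [show QuotientAddGroup.mk' Φ.range (Φ (Pi.single r (Pi.single c 1))) = 0 from
      (QuotientAddGroup.eq_zero_iff _).2 ⟨_, rfl⟩, map_zero]
  have h2 : ∑ r, α r + ∑ r, β r + ∑ r, γ r ≠ 0 := by
    simp only [α, β, γ, ← map_sum, ← map_add]
    convert hχ using 1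
    show ψ _ = ψ _
    congr 1
    ext x <;> simp [Prod.fst_sum, Prod.snd_sum, Pi.single_apply]
  let g := fun s => -γ s - α o - β o
  have h3 : ∀ r c, (α r - α o) + (β c - β o) = g (L r c) := fun r c => by
    simp only [g]; rw [← eq_neg_of_add_eq_zero_left (h1 r c)]; abel
  have br : ∀ r, Function.Bijective (L r) := fun r => (hL.1 r).bijective_of_finite
  have bc : ∀ c, Function.Bijective (fun r => L r c) := fun c => (hL.2 c).bijective_of_finite
  have ga : ∀ r, α r - α o = g (L r o) := fun r => by rw [← h3]; simp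
  have gb : ∀ r, β r - β o = g (L o r) := fun r => by rw [← h3]; simp
  have h4 : ∑ s, g s ≠ 0 := by
    intro e
    have e1 : ∑ r, (α r - α o) = 0 := by simp only [ga]; rw [(bc o).sum_comp g, e]
    have e2 : ∑ r, (β r - β o) = 0 := by simp only [gb]; rw [(br o).sum_comp g, e]
    simp only [g, sum_sub_distrib, sum_neg_distrib] at e e1 e2
    rw [sub_eq_zero] at e1 e2
    rw [← e1, ← e2] at e
    exact h2 (by rw [← neg_eq_zero, ← e]; abel)
  let S : AddSubgroup (AddCircle (1 : ℚ)) :=
    { carrier := Set.range g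
      zero_mem' := ⟨L o o, by rw [← ga]; simp⟩
      add_mem' := by
        rintro _ _ ⟨s, rfl⟩ ⟨t, rfl⟩
        obtain ⟨r, rfl⟩ := (bc o).2 s
        obtain ⟨c, rfl⟩ := (br o).2 t
        exact ⟨L r c, by rw [← h3, ga, gb]⟩
      neg_mem' := by
        rintro _ ⟨s, rfl⟩
        obtain ⟨r, rfl⟩ := (bc o).2 s
        obtain ⟨c, hc⟩ := (br r).2 (L o o)
        refine ⟨L o c, eq_neg_of_add_eq_zero_right ?_⟩
        rw [← ga, ← gb, h3, hc, ← ga, sub_self] }
  have : Finite S := Set.finite_range g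
  have := Fintype.ofFinite S
  have hc : IsAddCyclic S := isAddCyclic_of_card_nsmul_eq_zero_le (fun n hn => by
    have := AddCircle.card_torsion_le_of_isSMulRegular (1 : ℚ) n hn.ne'
      (.of_right_eq_zero_of_smul fun _ ↦ by simp [hn.ne'])
    have e := Set.encard_le_encard_of_injOn (s := ((univ.filter (fun a : S => n • a = 0) : Finset S) : Set S))
      (t := {x : AddCircle (1 : ℚ) | n • x = 0}) (f := Subtype.val) (fun x hx => by
        simp only [coe_filter, mem_univ, true_and, Set.mem_ofPred_eq] at hx ⊢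
        exact congrArg Subtype.val hx) Subtype.val_injective.injOn
    rw [Set.encard_coe_eq_coe_finsetCard] at e
    exact_mod_cast e.trans this)
  let E := (zmodAddCyclicAddEquiv hc).symm
  have : NeZero (Nat.card S) := ⟨Nat.card_pos.ne'⟩
  let g' : X → S := fun s => ⟨g s, s, rfl⟩
  refine cyc L hL (Nat.card S) (fun r => E (g' (L r o))) (fun c => E (g' (L o c)))
    (fun s => E (g' s)) o (fun r c => ?_) ?_ ?_ (fun i => ?_) ?_
  · rw [← map_add]; congr 1; exact Subtype.ext (by simp only [g', AddSubgroup.coe_add]; rw [← h3 r c, ga, gb])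
  · rw [← map_zero E]; congr 1; exact Subtype.ext (by simp only [g']; rw [← ga]; simp)
  · rw [← map_zero E]; congr 1; exact Subtype.ext (by simp only [g']; rw [← ga]; simp)
  · obtain ⟨⟨_, s, rfl⟩, rfl⟩ := E.surjective i
    exact ⟨s, rfl⟩
  · rw [← map_sum, Ne, map_eq_zero_iff _ E.injective]
    intro e
    exact h4 (by simpa [g'] using congrArg Subtype.val e)

end Pool.Agent.Results.MP_b7f7f4_co.Block
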